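import Pool.Agent.Maker22.Win
import Pool.Agent.Maker22.Clique
import Pool.Agent.Maker22.Param
import Pool.Agent.Maker22.Estimate

/-!
Maker's clique size in the (2:2) Maker-Breaker clique game on the complete graph with `N` vertices.
-/

set_option autoImplicit false
set_option linter.unusedVariables false

namespace Pool.Agent.Results.MP_a50aef_co.TwoTwoClique

open Finset

/-- A move is the set of the edges claimed in it. A play `h` is the list of its moves; the moves
number `0, 2, 4, ...` are made by Maker and the moves number `1, 3, 5, ...` by Breaker.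
`unclaimed h` is the set of the edges of `K_N` not claimed in `h`. -/
def unclaimed {N : ℕ} (h : List (Finset (Sym2 (Fin N)))) : Finset (Sym2 (Fin N)) :=
  univ.filter (fun e => ¬ e.IsDiag ∧ ∀ m ∈ h, e ∉ m)

/-- A legal move after `h` consists of two unclaimed edges or, if only one unclaimed edge remains,
of this edge. -/
def IsLegalMove {N : ℕ} (h : List (Finset (Sym2 (Fin N)))) (m : Finset (Sym2 (Fin N))) : Prop :=
  m ⊆ unclaimed h ∧ (m.card = 2 ∨ (m.card = 1 ∧ (unclaimed h).card = 1))

/-- All moves of `h` are legal. -/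
def IsPlay {N : ℕ} (h : List (Finset (Sym2 (Fin N)))) : Prop :=
  ∀ (i : ℕ) (hi : i < h.length), IsLegalMove (h.take i) (h[i]'hi)

/-- Maker follows `σ` in the play `h`: each of his moves is the value of `σ` at the list of the
earlier moves. -/
def Follows {N : ℕ} (σ : List (Finset (Sym2 (Fin N))) → Finset (Sym2 (Fin N)))
    (h : List (Finset (Sym2 (Fin N)))) : Prop :=
  ∀ (i : ℕ) (hi : i < h.length), i % 2 = 0 → h[i]'hi = σ (h.take i)

/-- The edges claimed by Maker in the play `h`. -/
def makerEdges {N : ℕ} (h : List (Finset (Sym2 (Fin N)))) : Finset (Sym2 (Fin N)) :=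
  univ.filter (fun e => ∃ (i : ℕ) (hi : i < h.length), i % 2 = 0 ∧ e ∈ h[i]'hi)

/-- Maker has a strategy which always makes legal moves and builds `K_q` in every complete play in
which he follows it. -/
def MakerCanBuild (N q : ℕ) : Prop :=
  ∃ σ : List (Finset (Sym2 (Fin N))) → Finset (Sym2 (Fin N)),
    (∀ h : List (Finset (Sym2 (Fin N))), IsPlay h → Follows σ h → h.length % 2 = 0 →
      (unclaimed h).Nonempty → IsLegalMove h (σ h)) ∧
    (∀ h : List (Finset (Sym2 (Fin N))), IsPlay h → Follows σ h → unclaimed h = ∅ →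
      ∃ S : Finset (Fin N), S.card = q ∧ ∀ a ∈ S, ∀ b ∈ S, a ≠ b → s(a, b) ∈ makerEdges h)

/-- the edges of `K_N` -/
def EE (N : ℕ) : Finset (Sym2 (Fin N)) := univ.filter (fun e => ¬ e.IsDiag)

lemma unclaimed_eq {N : ℕ} (h : List (Finset (Sym2 (Fin N)))) :
    unclaimed h = Maker22.free (EE N) h := by
  ext e
  unfold unclaimed Maker22.free EE
  simp only [Finset.mem_filter, Finset.mem_univ, true_and]

lemma isLegalMove_iff {N : ℕ} (h : List (Finset (Sym2 (Fin N)))) (m : Finset (Sym2 (Fin N))) :
    IsLegalMove h m ↔ Maker22.IsMove (EE N) h m := by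
  unfold IsLegalMove Maker22.IsMove
  rw [unclaimed_eq]

lemma isPlay_iff {N : ℕ} (h : List (Finset (Sym2 (Fin N)))) :
    IsPlay h ↔ Maker22.Legal (EE N) h := by
  unfold IsPlay Maker22.Legal
  simp only [isLegalMove_iff]

lemma own_subset {N : ℕ} (h : List (Finset (Sym2 (Fin N)))) :
    Maker22.own (EE N) 0 h ⊆ makerEdges h := by
  intro e he
  unfold Maker22.own at he
  rw [Finset.mem_filter] at he
  unfold makerEdges
  rw [Finset.mem_filter]
  exact ⟨Finset.mem_univ _, he.2⟩

/-- The plays in the second condition of `MakerCanBuild` exist: a strategy which always makes legal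
moves is followed in some complete play. -/
lemma exists_complete_play {N : ℕ} (σ : List (Finset (Sym2 (Fin N))) → Finset (Sym2 (Fin N)))
    (hσ : ∀ h : List (Finset (Sym2 (Fin N))), IsPlay h → Follows σ h → h.length % 2 = 0 →
      (unclaimed h).Nonempty → IsLegalMove h (σ h)) :
    ∃ h : List (Finset (Sym2 (Fin N))), IsPlay h ∧ Follows σ h ∧ unclaimed h = ∅ := by
  have key : ∀ (n : ℕ) (h : List (Finset (Sym2 (Fin N)))), (unclaimed h).card = n → IsPlay h →
      Follows σ h → ∃ h : List (Finset (Sym2 (Fin N))), IsPlay h ∧ Follows σ h ∧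
        unclaimed h = ∅ := by
    intro n
    induction n using Nat.strong_induction_on with
    | _ n ih =>
      intro h hn hp hf
      by_cases hne : (unclaimed h).Nonempty
      · -- the next move
        obtain ⟨m, hm, hm'⟩ : ∃ m, IsLegalMove h m ∧ (h.length % 2 = 0 → m = σ h) := by
          by_cases hl : h.length % 2 = 0
          · exact ⟨σ h, hσ h hp hf hl hne, fun _ => rfl⟩
          · by_cases h2 : 2 ≤ (unclaimed h).card
            · obtain ⟨m, hm, hc⟩ := Finset.exists_subset_card_eq h2
              exact ⟨m, ⟨hm, Or.inl hc⟩, fun e => absurd e hl⟩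
            · have h1 := Finset.card_pos.2 hne
              exact ⟨unclaimed h, ⟨Finset.Subset.refl _, Or.inr ⟨by omega, by omega⟩⟩,
                fun e => absurd e hl⟩
        have hmne : m.Nonempty := by
          rw [← Finset.card_pos]
          rcases hm.2 with e | e
          · omega
          · omega
        have hsub : unclaimed (h ++ [m]) ⊂ unclaimed h := by
          rw [Finset.ssubset_iff_of_subset]
          · obtain ⟨e, he⟩ := hmne
            refine ⟨e, hm.1 he, ?_⟩
            unfold unclaimed
            rw [Finset.mem_filter]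
            rintro ⟨_, _, h3⟩
            exact h3 m (by simp) he
          · intro e he
            unfold unclaimed at he ⊢
            rw [Finset.mem_filter] at he ⊢
            exact ⟨he.1, he.2.1, fun m' hm' => he.2.2 m' (by simp [hm'])⟩
        refine ih _ (hn ▸ Finset.card_lt_card hsub) (h ++ [m]) rfl ?_ ?_
        · intro i hi
          rw [List.length_append, List.length_singleton] at hi
          by_cases hil : i < h.length
          · rw [List.getElem_append_left hil, List.take_append_of_le_length hil.le]
            exact hp i hil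
          · have hil' : i = h.length := by omega
            subst hil'
            simpa using hm
        · intro i hi hi2
          rw [List.length_append, List.length_singleton] at hi
          by_cases hil : i < h.length
          · rw [List.getElem_append_left hil, List.take_append_of_le_length hil.le]
            exact hf i hil hi2
          · have hil' : i = h.length := by omega
            subst hil'
            simpa using hm' hi2
      · exact ⟨h, hp, hf, Finset.not_nonempty_iff_eq_empty.1 hne⟩
  exact key _ [] rfl (by intro i hi; simp at hi) (by intro i hi; simp at hi)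

/-- There is an absolute constant `C` such that for every sufficiently large `N` Maker can always
build `K_q` in the (2:2) game on `K_N` with `q = ⌊2 log₂ N - 2 log₂ log₂ N - C⌋`. -/
theorem result : ∃ (C : ℝ) (N₀ : ℕ), ∀ N : ℕ, N₀ ≤ N → ∃ q : ℕ, 2 ≤ q ∧
    (q : ℤ) = ⌊2 * Real.logb 2 N - 2 * Real.logb 2 (Real.logb 2 N) - C⌋ ∧
    MakerCanBuild N q := by
  obtain ⟨N₀, hN₀⟩ := Maker22.params_eventually
  refine ⟨20, N₀, fun N hN => ?_⟩
  obtain ⟨q, L, D, hq, hNL, hqD, h1, h2, h3, h4, h0, hqN, hq3, hN2⟩ := hN₀ N hN
  refine ⟨q, by omega, hq, ?_⟩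
  have hsum := Maker22.sum_small hNL hqD h1 h2 h3 h4 h0 hqN
  set T := ∑ s ∈ Icc 3 q, (q.choose s : ℝ) * ((N - q).choose (q - s) : ℝ) *
        (5 ^ s * 2 ^ (s.choose 2)) with hT
  have hT0 : 0 < T := by
    rw [hT]
    refine Finset.sum_pos' (fun s _ => by positivity) ⟨q, by simp [hq3], ?_⟩
    simp only [Nat.choose_self, Nat.sub_self, Nat.choose_zero_right, Nat.cast_one, one_mul]
    positivity
  set X : ℝ := 2 ^ (q.choose 2) with hX
  have hX0 : 0 < X := by positivity
  set l := X / (2 * T) with hl
  have hl0 : 0 < l := by positivity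
  have hcoef := Maker22.coef_clique (N := N) hl0
  have hTT := Maker22.TT_clique (N := N) q
  have hPP := Maker22.PP_clique (N := N) hl0 q
  rw [← hT, ← hX] at hPP
  rw [← hX] at hTT
  have hA : ∀ S ∈ Maker22.fam N q, Maker22.edg S ⊆ EE N := by
    intro S _ e he
    induction e with
    | h a b =>
        rw [Maker22.mem_edg] at he
        unfold EE
        rw [Finset.mem_filter, Sym2.mk_isDiag_iff]
        exact ⟨Finset.mem_univ _, he.2.2⟩
  have hcard : ((EE N).card : ℝ) ≤ (N : ℝ) ^ 2 / 2 := by
    have e1 : EE N = Maker22.edg (univ : Finset (Fin N)) := by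
      ext e
      induction e with
      | h a b =>
          rw [Maker22.mem_edg]
          unfold EE
          rw [Finset.mem_filter, Sym2.mk_isDiag_iff]
          simp
    rw [e1, Maker22.card_edg, Finset.card_univ, Fintype.card_fin, Nat.cast_choose_two]
    have : (0:ℝ) ≤ N := Nat.cast_nonneg _
    nlinarith
  have hd : s((⟨0, by omega⟩ : Fin N), (⟨0, by omega⟩ : Fin N)) ∉ EE N := by
    unfold EE
    rw [Finset.mem_filter, Sym2.mk_isDiag_iff]
    simp
  have hbig : 3 / (2 * l) * ((EE N).card : ℝ) <
      Maker22.LL Maker22.edg (Maker22.cc l) (Maker22.fam N q) ∅ := by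
    have e1 : l * ((N.choose q : ℝ) / X ^ 2 * T) = (N.choose q : ℝ) / X / 2 := by
      rw [hl]
      field_simp
    rw [e1] at hPP
    have e2 : (N.choose q : ℝ) / X / 2 ≤
        Maker22.LL Maker22.edg (Maker22.cc l) (Maker22.fam N q) ∅ := by
      unfold Maker22.LL
      rw [hTT]
      linarith
    refine lt_of_lt_of_le ?_ e2
    have e3 : 3 / (2 * l) = 3 * T / X := by
      rw [hl]
      field_simp
    rw [e3]
    calc 3 * T / X * ((EE N).card : ℝ) ≤ 3 * T / X * ((N : ℝ) ^ 2 / 2) :=
          mul_le_mul_of_nonneg_left hcard (by positivity)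
      _ = (3 * (N : ℝ) ^ 2 * T) / (2 * X) := by ring
      _ < (N.choose q : ℝ) / (2 * X) := div_lt_div_of_pos_right hsum (by positivity)
      _ = (N.choose q : ℝ) / X / 2 := by ring
  obtain ⟨σ, s1, s2⟩ := Maker22.maker_wins hcoef (EE N) (Maker22.fam N q) hA _ hd hbig
  refine ⟨σ, ?_, ?_⟩
  · intro h hp hf hl hne
    rw [isLegalMove_iff]
    rw [unclaimed_eq] at hne
    exact s1 h ((isPlay_iff h).1 hp) hf hl hne
  · intro h hp hf hemp
    rw [unclaimed_eq] at hemp
    obtain ⟨S, hS, hS2⟩ := s2 h ((isPlay_iff h).1 hp) hf hemp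
    refine ⟨S, Maker22.mem_fam.1 hS, ?_⟩
    intro a ha b hb hab
    exact own_subset h (hS2 (Maker22.mem_edg.2 ⟨ha, hb, hab⟩))

end Pool.Agent.Results.MP_a50aef_co.TwoTwoClique
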